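import Pool.Agent.Q21.AW.Fin

set_option autoImplicit false

/-! Windows of digits, Hausdorff dimension and integer parts for a countable family of properties with
power-saving exceptional sets. -/

namespace Pool.Agent.Q22.DW

open MeasureTheory Filter Set ENNReal Topology Metric
open Pool.Agent.Q21.AW

/-- no violation at any `x` between `N ^ C` and `exp ((log N) ^ (1 + c))` -/
def Holds {ι : Type*} (V : ι → ℝ → ℕ → ℕ → Prop) (C c ε N : ℝ) (i : ι) (m : ℕ) : Prop :=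
  m ≠ 0 ∧ ∀ x : ℕ, N ^ C ≤ x → (x : ℝ) ≤ Real.exp ((Real.log N) ^ (1 + c)) → ¬ V i ε m x

lemma Holds.mono {ι : Type*} {V : ι → ℝ → ℕ → ℕ → Prop}
    (hV : ∀ i ε ε' m x, ε ≤ ε' → V i ε' m x → V i ε m x) {C c ε ε' N : ℝ} {i : ι} {m : ℕ}
    (h : Holds V C c ε N i m) (hε : ε ≤ ε') : Holds V C c ε' N i m :=
  ⟨h.1, fun x h1 h2 h3 => h.2 x h1 h2 (hV i ε ε' m x hε h3)⟩

open Classical in
/-- few exceptions at real scales -/
theorem real_scale {ι : Type*} (V : ι → ℝ → ℕ → ℕ → Prop) (θ₀ θ C₀ C c : ℝ) (h1 : 0 < θ₀) (h2 : θ₀ < θ)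
    (h3 : 0 < C₀) (h4 : C₀ < C) (hc : 0 < c) (i : ι) (ε : ℝ)
    (h : ∃ N₀ : ℕ, ∀ N : ℕ, N₀ ≤ N → (((Finset.Icc 1 N).filter (fun n : ℕ => ∃ x : ℕ,
      ((N : ℝ) ^ C₀ ≤ x ∧ (x : ℝ) ≤ Real.exp ((Real.log N) ^ (1 + c))) ∧ V i ε n x)).card : ℝ) ≤ (N : ℝ) ^ θ₀)
    (T : ℕ) : ∃ L₀ : ℝ, 1 ≤ L₀ ∧ ∀ L : ℝ, L₀ ≤ L →
      ((((Finset.range (⌊(T : ℝ) * L⌋₊ + 1)).filter
        (fun m => ¬ Holds V C c ε L i m)).card : ℕ) : ℝ) ≤ L ^ θ := by
  obtain ⟨N₀, hN₀⟩ := h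
  have e1 : ∀ᶠ L : ℝ in atTop, (2 * (T + 1 : ℝ)) ^ C₀ ≤ L ^ (C - C₀) :=
    (tendsto_rpow_atTop (show 0 < C - C₀ by linarith)).eventually_ge_atTop _
  have e2 : ∀ᶠ L : ℝ in atTop, 1 + (2 * (T + 1 : ℝ)) ^ θ₀ ≤ L ^ (θ - θ₀) :=
    (tendsto_rpow_atTop (show 0 < θ - θ₀ by linarith)).eventually_ge_atTop _
  obtain ⟨L₁, hL₁⟩ := eventually_atTop.1 ((e1.and e2).and (eventually_ge_atTop (max 1 (N₀ : ℝ))))
  refine ⟨max L₁ 1, le_max_right _ _, fun L hL => ?_⟩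
  obtain ⟨⟨h6, h7⟩, h8⟩ := hL₁ L ((le_max_left _ _).trans hL)
  have hL1 : 1 ≤ L := (le_max_right _ _).trans hL
  have hL0 : 0 < L := by linarith
  set N : ℕ := ⌈(T + 1 : ℝ) * L⌉₊ with hNdef
  have hT0 : (0 : ℝ) ≤ T := Nat.cast_nonneg _
  have hNle : (N : ℝ) ≤ 2 * (T + 1) * L := by
    have := Nat.ceil_lt_add_one (show 0 ≤ (T + 1 : ℝ) * L by positivity)
    have h9 : (1 : ℝ) ≤ (T + 1) * L := by nlinarith
    rw [← hNdef] at this
    linarith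
  have hNge : (T + 1 : ℝ) * L ≤ N := Nat.le_ceil _
  have hLN : L ≤ N := by nlinarith
  have hN1 : (1 : ℝ) ≤ N := hL1.trans hLN
  have hNN : N₀ ≤ N := by
    have h11 : (N₀ : ℝ) ≤ N := ((le_max_right _ _).trans h8).trans hLN
    exact_mod_cast h11
  set B := (Finset.Icc 1 N).filter (fun n : ℕ => ∃ x : ℕ,
      ((N : ℝ) ^ C₀ ≤ x ∧ (x : ℝ) ≤ Real.exp ((Real.log N) ^ (1 + c))) ∧ V i ε n x) with hB
  have hsub : (Finset.range (⌊(T : ℝ) * L⌋₊ + 1)).filter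
      (fun m => ¬ Holds V C c ε L i m) ⊆ insert 0 B := by
    intro m hm
    rw [Finset.mem_filter, Finset.mem_range, Nat.lt_succ_iff] at hm
    obtain ⟨h9, h10⟩ := hm
    rw [Finset.mem_insert]
    rcases Nat.eq_zero_or_pos m with h11 | h11
    · exact Or.inl h11
    right
    unfold Holds at h10
    push Not at h10
    obtain ⟨x, hx1, hx2, hx3⟩ := h10 (by omega)
    rw [hB, Finset.mem_filter, Finset.mem_Icc]
    refine ⟨⟨h11, ?_⟩, x, ⟨?_, ?_⟩, hx3⟩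
    · have h13 : (m : ℝ) ≤ (T : ℝ) * L := (Nat.le_floor_iff (by positivity)).1 h9
      have h14 : (m : ℝ) ≤ N := by nlinarith
      exact_mod_cast h14
    · refine le_trans ?_ hx1
      calc (N : ℝ) ^ C₀ ≤ (2 * (T + 1) * L) ^ C₀ := Real.rpow_le_rpow (by positivity) hNle (by linarith)
        _ = (2 * (T + 1 : ℝ)) ^ C₀ * L ^ C₀ := Real.mul_rpow (by positivity) hL0.le
        _ ≤ L ^ (C - C₀) * L ^ C₀ := mul_le_mul_of_nonneg_right h6 (by positivity)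
        _ = L ^ C := by rw [← Real.rpow_add hL0]; congr 1; ring
    · refine hx2.trans (Real.exp_le_exp.2 ?_)
      exact Real.rpow_le_rpow (Real.log_nonneg hL1) (Real.log_le_log hL0 hLN) (by linarith)
  have hcard : (((Finset.range (⌊(T : ℝ) * L⌋₊ + 1)).filter
      (fun m => ¬ Holds V C c ε L i m)).card : ℝ) ≤ 1 + (N : ℝ) ^ θ₀ := by
    have h9 := (Finset.card_le_card hsub).trans (Finset.card_insert_le _ _)
    have h10 : (B.card : ℝ) ≤ (N : ℝ) ^ θ₀ := hN₀ N hNN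
    have h13 : (((Finset.range (⌊(T : ℝ) * L⌋₊ + 1)).filter
      (fun m => ¬ Holds V C c ε L i m)).card : ℝ) ≤ (B.card : ℝ) + 1 := by exact_mod_cast h9
    linarith
  refine hcard.trans ?_
  have hLθ : 1 ≤ L ^ θ₀ := Real.one_le_rpow hL1 (by linarith)
  calc 1 + (N : ℝ) ^ θ₀ ≤ 1 + ((2 * (T + 1) * L) ^ θ₀) := by
        have : (N : ℝ) ^ θ₀ ≤ (2 * (T + 1) * L) ^ θ₀ := Real.rpow_le_rpow (by positivity) hNle (by linarith)
        linarith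
    _ = 1 + ((2 * (T + 1 : ℝ)) ^ θ₀ * L ^ θ₀) := by rw [Real.mul_rpow (by positivity) hL0.le]
    _ ≤ (1 + (2 * (T + 1 : ℝ)) ^ θ₀) * L ^ θ₀ := by nlinarith
    _ ≤ L ^ (θ - θ₀) * L ^ θ₀ := mul_le_mul_of_nonneg_right h7 (by positivity)
    _ = L ^ θ := by rw [← Real.rpow_add hL0]; congr 1; ring

lemma card_mono {P Q : ℕ → Prop} {i1 : DecidablePred P} {i2 : DecidablePred Q} {s t : Finset ℕ}
    (h : ∀ m ∈ s, P m → m ∈ t ∧ Q m) : (s.filter P).card ≤ (t.filter Q).card :=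
  Finset.card_le_card fun m hm => by
    rw [Finset.mem_filter] at hm ⊢
    exact h m hm.1 hm.2

open Classical in
/-- **generic theorem** -/
theorem gen {ι : Type*} [Countable ι] (V : ι → ℝ → ℕ → ℕ → Prop)
    (hV : ∀ i ε ε' m x, ε ≤ ε' → V i ε' m x → V i ε m x)
    (θ₀ θ C₀ C c : ℝ) (h1 : 0 < θ₀) (h2 : θ₀ < θ) (hθ1 : θ < 1)
    (h3 : 0 < C₀) (h4 : C₀ < C) (hc : 0 < c)
    (h : ∀ (i : ι) (ε : ℝ), 0 < ε → ∃ N₀ : ℕ, ∀ N : ℕ, N₀ ≤ N →
      (((Finset.Icc 1 N).filter (fun n : ℕ => ∃ x : ℕ,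
      ((N : ℝ) ^ C₀ ≤ x ∧ (x : ℝ) ≤ Real.exp ((Real.log N) ^ (1 + c))) ∧ V i ε n x)).card : ℝ) ≤ (N : ℝ) ^ θ₀) :
      (∀ g : ℕ, 2 ≤ g → ∀ κ : ℝ, κ < 1 - θ → ∀ᵐ α : ℝ, ∀ i : ι, ∀ ε : ℝ, 0 < ε →
        ∀ᶠ k : ℕ in atTop, ∀ j : ℕ, (j : ℝ) ≤ (g : ℝ) ^ (κ * k) →
          Holds V C c ε ((g : ℝ) ^ k) i (window g j k α)) ∧
      (∀ g : ℕ, 2 ≤ g → ∀ η : ℝ, 0 ≤ η →
        dimH {α : ℝ | ¬ ∀ i : ι, ∀ ε : ℝ, 0 < ε → ∀ᶠ k : ℕ in atTop, ∀ j : ℕ, (j : ℝ) ≤ η * k →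
          Holds V C c ε ((g : ℝ) ^ k) i (window g j k α)} ≤ ENNReal.ofReal ((θ + η) / (1 + η))) ∧
      (∀ s : ℝ, θ < s → ∀ l : ℕ → ℝ, (∀ k, 0 < l k) → Summable (fun k => l k ^ (θ - s)) →
        μH[s] {α : ℝ | 0 < α ∧ ¬ ∀ i : ι, ∀ ε : ℝ, 0 < ε → ∀ᶠ k : ℕ in atTop,
          Holds V C c ε (l k) i ⌊α * l k⌋₊} = 0) := by
  have hθ0 : 0 < θ := by linarith
  have hreal : ∀ (i : ι) (ε : ℝ), 0 < ε → ∀ T : ℕ, ∃ L₀ : ℝ, 1 ≤ L₀ ∧ ∀ L : ℝ, L₀ ≤ L →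
      ((((Finset.range (⌊(T : ℝ) * L⌋₊ + 1)).filter
        (fun m => ¬ Holds V C c ε L i m)).card : ℕ) : ℝ) ≤ L ^ θ :=
    fun i ε hε T => real_scale V θ₀ θ C₀ C c h1 h2 h3 h4 hc i ε (h i ε hε) T
  have few : ∀ (i : ι) (ε : ℝ), 0 < ε → Few θ (fun N m => ¬ Holds V C c ε (N : ℝ) i m) := by
    intro i ε hε
    obtain ⟨L₀, hL1, hL⟩ := hreal i ε hε 1
    refine ⟨⌈L₀⌉₊, fun N hN => ?_⟩
    have h1 : L₀ ≤ N := (Nat.le_ceil _).trans (by exact_mod_cast hN)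
    refine le_trans ?_ (hL N h1)
    have h2 : ⌊((1 : ℕ) : ℝ) * (N : ℝ)⌋₊ = N := by rw [Nat.cast_one, one_mul, Nat.floor_natCast]
    rw [h2]
    refine Nat.cast_le.2 (card_mono fun m hm h3 => ?_)
    rw [Finset.mem_Icc] at hm
    rw [Finset.mem_range]
    exact ⟨by omega, h3⟩
  have hn : ∀ ε : ℝ, 0 < ε → ∃ n : ℕ, (1 : ℝ) / (n + 1) ≤ ε := fun ε hε => by
    obtain ⟨n, hn⟩ := exists_nat_one_div_lt hε
    exact ⟨n, hn.le⟩
  refine ⟨?_, ?_, ?_⟩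
  · intro g hg κ hκ
    have h1 : ∀ᵐ α : ℝ, ∀ i : ι, ∀ n : ℕ, ∀ᶠ k : ℕ in atTop, ∀ j : ℕ, (j : ℝ) ≤ (g : ℝ) ^ (κ * k) →
        Holds V C c (1 / (n + 1)) ((g : ℝ) ^ k) i (window g j k α) := by
      rw [ae_all_iff]
      intro i
      rw [ae_all_iff]
      intro n
      have h2 := ae_windows g hg θ κ (by linarith) hθ1 hκ _ (few i (1 / (n + 1)) (by positivity))
      filter_upwards [h2] with α hα
      filter_upwards [hα] with k hk j hj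
      have h3 := hk j hj
      rw [Nat.cast_pow, not_or, not_not] at h3
      exact h3.2
    filter_upwards [h1] with α hα i ε hε
    obtain ⟨n, hn'⟩ := hn ε hε
    filter_upwards [hα i n] with k hk j hj
    exact (hk j hj).mono hV hn'
  · intro g hg η hη
    refine dim_le_of_null _ (by positivity) ?_ _ ?_
    · rw [div_lt_one (by positivity)]
      linarith
    · intro s hs hs1
      have h1 : ∀ i : ι, ∀ n : ℕ, μH[s] {α : ℝ | ¬ ∀ᶠ k : ℕ in atTop, ∀ j : ℕ, (j : ℝ) ≤ η * k →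
          Holds V C c (1 / (n + 1)) ((g : ℝ) ^ k) i (window g j k α)} = 0 := by
        intro i n
        refine measure_mono_null ?_ (dim_windows g hg θ η s (by linarith) hη hs hs1 _
          (few i (1 / (n + 1)) (by positivity)))
        intro α hα hcon
        refine hα ?_
        filter_upwards [hcon] with k hk j hj
        have h3 := hk j hj
        rw [Nat.cast_pow, not_or, not_not] at h3
        exact h3.2
      have h2 := measure_iUnion_null (fun i : ι => measure_iUnion_null (h1 i))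
      refine measure_mono_null ?_ h2
      intro α hα
      by_contra hcon
      refine hα ?_
      intro i ε hε
      obtain ⟨n, hn'⟩ := hn ε hε
      simp only [Set.mem_iUnion, not_exists, Set.mem_ofPred_eq, not_not] at hcon
      filter_upwards [hcon i n] with k hk j hj
      exact (hk j hj).mono hV hn'
  · intro s hs l hl hsum
    have h1 : ∀ i : ι, ∀ n : ℕ, μH[s] {α : ℝ | 0 < α ∧ ¬ ∀ᶠ k : ℕ in atTop,
        Holds V C c (1 / (n + 1)) (l k) i ⌊α * l k⌋₊} = 0 := by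
      intro i n
      refine measure_mono_null ?_ (seq_null θ s hs (by linarith)
        (fun L m => ¬ Holds V C c (1 / (n + 1)) L i m) ?_ l hl hsum)
      · rintro α ⟨h0, hα⟩
        refine ⟨h0, fun hcon => hα ?_⟩
        filter_upwards [hcon] with k hk
        exact not_not.1 hk
      · intro T
        obtain ⟨L₀, _, hL⟩ := hreal i (1 / (n + 1)) (by positivity) T
        refine ⟨L₀, fun L h3 => le_trans ?_ (hL L h3)⟩
        exact Nat.cast_le.2 (card_mono fun m hm h4 => ⟨hm, h4⟩)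
    have h2 := measure_iUnion_null (fun i : ι => measure_iUnion_null (h1 i))
    refine measure_mono_null ?_ h2
    rintro α ⟨h0, hα⟩
    by_contra hcon
    refine hα ?_
    intro i ε hε
    obtain ⟨n, hn'⟩ := hn ε hε
    simp only [Set.mem_iUnion, not_exists, Set.mem_ofPred_eq, not_and, not_not] at hcon
    filter_upwards [hcon i n h0] with k hk
    exact hk.mono hV hn'

end Pool.Agent.Q22.DW
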